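import Pool.Agent.H44.GT.Targets2
import Pool.Agent.H35.DV.SM

/-!
# Row F_SU of the board `gd_modules`: unbounded scales and real factors
-/

set_option autoImplicit false

namespace Pool.Agent.H29.GD

open Pool.Agent.H44.DU Pool.Agent.H59.DU.SC Pool.Agent.H35.DV.SM

variable {n : ℕ} (S : Surf n)

theorem unb_scale (d : ℂ) (l : ℝ) (hl : 0 < l) (h : S.Unb d) : S.Unb ((l : ℂ) * d) := by
  have hS := step_scale S d l hl
  unfold Surf.Unb at h ⊢
  rw [hS]
  exact h

theorem unb_neg {d : ℂ} (h : S.Unb d) : S.Unb (-d) := by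
  intro C hC
  obtain ⟨M, hM, hMa⟩ := exM S
  obtain ⟨m, x, c, hx, hprod⟩ := h (C * (M * M)) (by positivity)
  refine ⟨m, fun k => G S (x (m - k)), fun k => S.a (x (m - 1 - k)).1, fun k hk => ?_, ?_⟩
  · have h4 := (step_rev S (hx (m - 1 - k) (by omega))).1
    have e1 : m - 1 - k + 1 = m - k := by omega
    have e2 : m - 1 - k = m - (k + 1) := by omega
    rw [e1] at h4
    change S.Step (-d) (S.a (x (m - 1 - k)).1) (G S (x (m - k))) (G S (x (m - (k + 1))))
    rw [← e2]
    exact h4
  · rw [Finset.prod_range_reflect (fun k => S.a (x k).1) m]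
    have h7 : ∀ k ∈ Finset.range m, c k = (S.a (x (k + 1)).1)⁻¹ := fun k hk =>
      (step_rev S (hx k (Finset.mem_range.1 hk))).2
    have h8 := Finset.prod_range_succ (fun k => S.a (x k).1) m
    have h9 := Finset.prod_range_succ' (fun k => S.a (x k).1) m
    set A : ℝ := ∏ k ∈ Finset.range m, S.a (x k).1 with hA
    have hApos : 0 < A := Finset.prod_pos fun k _ => S.a_pos _
    set P : ℝ := ∏ k ∈ Finset.range m, S.a (x (k + 1)).1 with hP
    have hPpos : 0 < P := Finset.prod_pos fun k _ => S.a_pos _
    have hc : ∏ k ∈ Finset.range m, c k = P⁻¹ := by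
      rw [Finset.prod_congr rfl h7, Finset.prod_inv_distrib]
    have hrel : A * S.a (x m).1 = P * S.a (x 0).1 := by
      rw [← h8, h9]
    have ha0 := S.a_pos (x 0).1
    have ham := S.a_pos (x m).1
    rw [hc] at hprod
    -- the two products agree up to a factor `M * M`
    have hA1 : A ≤ P * (M * M) := by
      have h1 : A = P * S.a (x 0).1 * (S.a (x m).1)⁻¹ := by
        rw [← hrel]
        field_simp
      rw [h1, mul_assoc]
      exact mul_le_mul_of_nonneg_left
        (mul_le_mul (hMa _).1 (hMa _).2 (inv_pos.2 ham).le hM.le) hPpos.le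
    have hA2 : P ≤ A * (M * M) := by
      have h1 : P = A * S.a (x m).1 * (S.a (x 0).1)⁻¹ := by
        rw [hrel]
        field_simp
      rw [h1, mul_assoc]
      exact mul_le_mul_of_nonneg_left
        (mul_le_mul (hMa _).1 (hMa _).2 (inv_pos.2 ha0).le hM.le) hApos.le
    have hMM : 0 < M * M := by positivity
    rcases hprod with hp | hp
    · right
      have h1 : P * (C * (M * M)) < 1 := by
        have := mul_lt_mul_of_pos_left hp hPpos
        rwa [mul_inv_cancel₀ hPpos.ne'] at this
      have h2 : A * C < 1 := by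
        calc A * C ≤ P * (M * M) * C := mul_le_mul_of_nonneg_right hA1 hC.le
          _ = P * (C * (M * M)) := by ring
          _ < 1 := h1
      rw [← one_div, lt_div_iff₀ hC]
      exact h2
    · left
      have h1 : C * (M * M) < P := by
        have h3 := (inv_lt_inv₀ hPpos (by positivity : (0 : ℝ) < C * (M * M))).1 hp
        exact h3
      have h2 : C * (M * M) < A * (M * M) := lt_of_lt_of_le h1 hA2
      exact lt_of_mul_lt_mul_right h2 hMM.le

theorem pf_F_SU : F_SU := by
  intro n S d l hl hd
  rcases lt_or_gt_of_ne hl with h | h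
  · have e : (l : ℂ) * d = ((-l : ℝ) : ℂ) * (-d) := by
      push_cast
      ring
    rw [e]
    exact unb_scale S (-d) (-l) (by linarith) (unb_neg S hd)
  · exact unb_scale S d l h hd

end Pool.Agent.H29.GD
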